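import Pool.Agent.Lib_MP_0cf6e1_g.FinalG

/-!
# The maximum Boolean dimension of posets of width `w` is `w` for `w ≤ 5`

For every `w` with `1 ≤ w ≤ 5` there is a finite poset of width `w` all of whose Boolean realizers
have size at least `w`. With the known bound `B(w) ≤ w` this gives `B(w) = w` for `w ≤ 5`.
-/

namespace Pool.Agent.Results.MP_0cf6e1_co.FiveChains

open Pool.Agent.BoolWidth

theorem result (w : ℕ) (hw : 1 ≤ w) (hw5 : w ≤ 5) :
    ∃ (X : Type) (_ : Fintype X) (_ : PartialOrder X), HasWidth X w ∧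
      ∀ d : ℕ, HasBoolRealizer X d → w ≤ d :=
  five w hw hw5

end Pool.Agent.Results.MP_0cf6e1_co.FiveChains
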