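import Pool.Agent.Lib_MP_0cf6e1_t.PartA

/-!
# Boolean realizers of size smaller than the width have linearly many turning points

For all `w ≥ 2` and `k` there are arbitrarily large finite posets `X` of width `w` such that in
every Boolean realizer of size `d < w` every single linear order changes its direction at least
`|X| / C` times along every chain with at least `|X| / k` elements (`C` depends on `w`, `k` only).
-/

namespace Pool.Agent.Results.MP_0cf6e1_co.ManyTurns

open Pool.Agent.BoolWidth Pool.Agent.BoolTurn

theorem result (w k : ℕ) (hw : 2 ≤ w) :
    ∃ C : ℕ, ∀ N : ℕ, ∃ (X : Type) (_ : Fintype X) (_ : PartialOrder X),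
      HasWidth X w ∧ N ≤ Fintype.card X ∧
        ∀ (d : ℕ) (L : Fin d → X → X → Prop) (τ : (Fin d → Prop) → Prop),
          IsBoolRealizer X L τ → d < w → ∀ (i : Fin d) (S : Finset X),
            IsChain (· ≤ ·) (S : Set X) → Fintype.card X ≤ k * S.card →
              Fintype.card X ≤ C * turns (L i) S :=
  main_turns w k hw

end Pool.Agent.Results.MP_0cf6e1_co.ManyTurns
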