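import Pool.Agent.Lib_MP_0cf6e1_g.FinalG
import Pool.Agent.Lib_MP_0cf6e1_g.MajG

/-!
# Boolean realizers of size smaller than the width have neutral edges

For every `w ≥ 4` there is a finite poset `X` of width `w` such that in every Boolean realizer of
`X` of size `d < w` the vectors of comparable pairs, and those of a comparable and of an
incomparable pair, may differ in any single coordinate only, and there are at least two coordinates
in which only two vectors of incomparable pairs differ. In particular `X` has no realizer of size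
less than `w` by weighted majority.
-/

namespace Pool.Agent.Results.MP_0cf6e1_co.NeutralEdges

open Pool.Agent.BoolWidth Pool.Agent.BoolTurn

theorem result (w : ℕ) (hw : 4 ≤ w) :
    ∃ (X : Type) (_ : Fintype X) (_ : PartialOrder X), HasWidth X w ∧
      (∀ (d : ℕ) (L : Fin d → X → X → Prop) (τ : (Fin d → Prop) → Prop),
        IsBoolRealizer X L τ → d < w → d + 1 = w ∧
          (∀ i, ∃ x y x' y' : X, x < y ∧ x' < y' ∧ DiffOnly L i x y x' y') ∧
          (∀ i, ∃ x y x' y' : X, x < y ∧ (¬ x' ≤ y' ∧ ¬ y' ≤ x') ∧ DiffOnly L i x y x' y') ∧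
          ∀ i, ∃ j, j ≠ i ∧ ∃ x y x' y' : X,
            (¬ x ≤ y ∧ ¬ y ≤ x) ∧ (¬ x' ≤ y' ∧ ¬ y' ≤ x') ∧ DiffOnly L j x y x' y') ∧
      ∀ (d : ℕ) (L : Fin d → X → X → Prop) (c : Fin d → ℝ), IsMajRealizer X L c → w ≤ d :=
  neutral w hw

end Pool.Agent.Results.MP_0cf6e1_co.NeutralEdges
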