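import Pool.Agent.Lib_MP_0cf6e1_b.PBool
import Pool.Agent.Lib_MP_0cf6e1_b.PMain

/-!
# The maximum Boolean dimension of posets of width `w` is at least `w - 1`

For every `w ≥ 1` there is a finite poset of width `w` all of whose Boolean realizers have size
at least `w - 1`. With the known bound `B(w) ≤ w` this gives `B(w) = w - 1` or `B(w) = w`.
-/

namespace Pool.Agent.Results.MP_0cf6e1_co.WidthMinusOne

open Pool.Agent.BoolWidth

theorem result (w : ℕ) (hw : 1 ≤ w) :
    ∃ (X : Type) (_ : Fintype X) (_ : PartialOrder X), HasWidth X w ∧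
      ∀ d : ℕ, HasBoolRealizer X d → w ≤ d + 1 :=
  main w hw

end Pool.Agent.Results.MP_0cf6e1_co.WidthMinusOne
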